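import Mathlib

set_option autoImplicit false

namespace Pool.Agent.H8.Iso

/-- `A` is countably compact in `Z`: each infinite subset of `A` has an accumulation point
in `Z` -/
def CountablyCompactIn {Z : Type} [TopologicalSpace Z] (A : Set Z) : Prop :=
  ∀ B : Set Z, B ⊆ A → B.Infinite → ∃ z : Z, AccPt z (Filter.principal B)

/-- `Z` is a g-space: the closure of each set countably compact in `Z` is compact -/
def GSpace (Z : Type) [TopologicalSpace Z] : Prop :=
  ∀ A : Set Z, CountablyCompactIn A → IsCompact (closure A)

/-- `Z` is isocompact: each closed countably compact subspace of `Z` is compact -/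
def Isocompact (Z : Type) [TopologicalSpace Z] : Prop :=
  ∀ F : Set Z, IsClosed F → IsCountablyCompact F → IsCompact F

/-- the space `C_p(X)`: continuous real functions with the subspace topology from `ℝ^X` -/
abbrev Cp (X : Type) [TopologicalSpace X] : Type := {f : X → ℝ // Continuous f}

end Pool.Agent.H8.Iso
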