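import Pool.Agent.H8.Iso.Space

set_option autoImplicit false

open Set Filter Topology

namespace Pool.Agent.H8.Iso

abbrev CX := {f : X → ℝ // Continuous f}

theorem cc_inter {Z : Type} [TopologicalSpace Z] {F : Set Z} (hF : IsCountablyCompact F)
    (V : ℕ → Set Z) (hV : ∀ n, IsClosed (V n)) (hanti : Antitone V)
    (hne : ∀ n, (F ∩ V n).Nonempty) : (F ∩ ⋂ n, V n).Nonempty := by
  by_contra hc
  rw [not_nonempty_iff_eq_empty] at hc
  have hcov : F ⊆ ⋃ n, (V n)ᶜ := by
    intro x hx
    by_contra h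
    rw [mem_iUnion] at h
    push Not at h
    have : x ∈ F ∩ ⋂ n, V n := ⟨hx, mem_iInter.2 fun n => by simpa using h n⟩
    rw [hc] at this
    exact this
  obtain ⟨n, hn⟩ := hF.elim_directed_cover (fun n => (V n)ᶜ) (fun n => (hV n).isOpen_compl) hcov
    (Monotone.directed_le fun n m hnm => compl_subset_compl.2 (hanti hnm))
  obtain ⟨x, hx, hxV⟩ := hne n
  exact hn hx hxV

theorem bounded {F : Set CX} (hF : IsCountablyCompact F) (x : X) :
    ∃ c : ℝ, ∀ f ∈ F, |f.1 x| ≤ c := by
  by_contra hc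
  push Not at hc
  obtain ⟨f, hfF, hf⟩ := cc_inter hF (fun n => {f | (n : ℝ) ≤ |f.1 x|})
    (fun n => isClosed_le continuous_const
      (continuous_abs.comp ((continuous_apply x).comp continuous_subtype_val)))
    (by
      intro n m hnm f hf
      have : (m : ℝ) ≤ |f.1 x| := hf
      exact (Nat.cast_le.2 hnm).trans this) (by
      intro n
      obtain ⟨f, hf, hn⟩ := hc n
      exact ⟨f, hf, hn.le⟩)
  obtain ⟨n, hn⟩ := exists_nat_gt |f.1 x|
  have := mem_iInter.1 hf n
  exact absurd this (not_le.2 hn)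

theorem compact_closure {F : Set CX} (hF : IsCountablyCompact F) :
    IsCompact (closure (Subtype.val '' F : Set (X → ℝ))) := by
  choose c hc using bounded hF
  have hK : IsCompact (Set.pi univ fun x : X => Icc (-(c x)) (c x)) :=
    isCompact_univ_pi fun x => isCompact_Icc
  refine hK.of_isClosed_subset isClosed_closure (closure_minimal ?_ hK.isClosed)
  rintro _ ⟨f, hf, rfl⟩ x _
  exact abs_le.1 (hc x f hf)

theorem step_countable {F : Set CX} (hF : IsCountablyCompact F) {g : X → ℝ}
    (hg : g ∈ closure (Subtype.val '' F : Set (X → ℝ))) {S : Set X} (hS : S.Countable) :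
    ∃ f ∈ F, ∀ x ∈ S, f.1 x = g x := by
  obtain ⟨s, hs⟩ := (hS.insert X.inf).exists_eq_range (insert_nonempty _ _)
  obtain ⟨f, hfF, hf⟩ := cc_inter hF
    (fun n => {f | ∀ i ≤ n, |f.1 (s i) - g (s i)| ≤ 1 / ((n : ℝ) + 1)})
    (by
      intro n
      have : {f : CX | ∀ i ≤ n, |f.1 (s i) - g (s i)| ≤ 1 / ((n : ℝ) + 1)} =
          ⋂ i ∈ {i | i ≤ n}, {f : CX | |f.1 (s i) - g (s i)| ≤ 1 / ((n : ℝ) + 1)} := by
        ext f
        simp
      rw [this]
      refine isClosed_biInter fun i _ => ?_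
      exact isClosed_le (continuous_abs.comp
        (((continuous_apply (s i)).comp continuous_subtype_val).sub continuous_const))
        continuous_const)
    (by
      intro n m hnm f hf i hi
      refine (hf i (hi.trans hnm)).trans ?_
      have : (n : ℝ) ≤ m := Nat.cast_le.2 hnm
      exact one_div_le_one_div_of_le (by positivity) (by linarith))
    (by
      intro n
      have hopen : IsOpen (⋂ i ∈ {i | i ≤ n}, {h : X → ℝ | |h (s i) - g (s i)| < 1 / ((n : ℝ) + 1)}) := by
        refine (Set.finite_le_nat n).isOpen_biInter fun i _ => ?_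
        exact isOpen_lt (continuous_abs.comp ((continuous_apply (s i)).sub continuous_const))
          continuous_const
      obtain ⟨_, hh, ⟨f, hf, rfl⟩⟩ := mem_closure_iff.1 hg _ hopen (by
        refine mem_iInter₂.2 fun i _ => ?_
        change |g (s i) - g (s i)| < 1 / ((n : ℝ) + 1)
        rw [sub_self, abs_zero]
        positivity)
      refine ⟨f, hf, fun i hi => ?_⟩
      exact (mem_iInter₂.1 hh i hi : |f.1 (s i) - g (s i)| < 1 / ((n : ℝ) + 1)).le)
  refine ⟨f, hfF, fun x hx => ?_⟩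
  have hx' : x ∈ range s := hs ▸ mem_insert_of_mem _ hx
  obtain ⟨i, rfl⟩ := hx'
  by_contra hne
  have hd : 0 < |f.1 (s i) - g (s i)| := abs_pos.2 (sub_ne_zero.2 hne)
  obtain ⟨n, hn⟩ := exists_nat_one_div_lt hd
  have h1 := mem_iInter.1 hf (max i n) i (le_max_left _ _)
  have h2 : 1 / (((max i n : ℕ) : ℝ) + 1) ≤ 1 / ((n : ℝ) + 1) := by
    have : (n : ℝ) ≤ ((max i n : ℕ) : ℝ) := Nat.cast_le.2 (le_max_right _ _)
    exact one_div_le_one_div_of_le (by positivity) (by linarith)
  linarith

/-- cofinal families of countable subsets of `D'` -/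
def Cof {D' : Set X} (T : Set {S : Set D' // S.Countable}) : Prop :=
  ∀ S₀ : {S : Set D' // S.Countable}, ∃ S ∈ T, S₀.1 ⊆ S.1

theorem cof_step {D' : Set X} (T : Set {S : Set D' // S.Countable}) (hT : Cof T)
    (c : {S : Set D' // S.Countable} → ℕ) : ∃ T' ⊆ T, Cof T' ∧ ∃ m, ∀ S ∈ T', c S = m := by
  by_contra hcon
  push Not at hcon
  have h1 : ∀ m, ∃ S₀ : {S : Set D' // S.Countable}, ∀ S ∈ T, c S = m → ¬ S₀.1 ⊆ S.1 := by
    intro m
    by_contra hc
    push Not at hc
    obtain ⟨S, hS, hne⟩ := hcon {S | S ∈ T ∧ c S = m} (fun S hS => hS.1) (by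
      intro S₀
      obtain ⟨S, hS, hcS, hsub⟩ := hc S₀
      exact ⟨S, ⟨hS, hcS⟩, hsub⟩) m
    exact hne hS.2
  choose S₀ hS₀ using h1
  obtain ⟨S, hS, hsub⟩ := hT ⟨⋃ m, (S₀ m).1, countable_iUnion fun m => (S₀ m).2⟩
  exact hS₀ (c S) S hS rfl ((subset_iUnion (fun m => (S₀ m).1) (c S)).trans hsub)

theorem step_small {F : Set CX} (hFc : IsClosed F) (hF : IsCountablyCompact F) {g : X → ℝ}
    (hg : g ∈ closure (Subtype.val '' F : Set (X → ℝ))) {D' : Set X} (hD : Sm D') :
    ∃ f ∈ F, ∀ x ∈ D', f.1 x = g x := by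
  classical
  obtain ⟨nD, hnD⟩ := hD
  -- approximations on countable sets
  have h1 : ∀ S : {S : Set D' // S.Countable}, ∃ f ∈ F, ∀ x ∈ (Subtype.val '' S.1 : Set X),
      f.1 x = g x := fun S => step_countable hF hg (S.2.image _)
  choose f hfF hfg using h1
  have h2 : ∀ (S : {S : Set D' // S.Countable}) (k : ℕ), ∃ n, Cardinal.mk (bad (f S).1 k) ≤ b n :=
    fun S k => continuous_iff'.1 (f S).2 k
  choose c hc using h2
  have hstep : ∀ (k : ℕ) (T : {T : Set {S : Set D' // S.Countable} // Cof T}),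
      ∃ T' : {T : Set {S : Set D' // S.Countable} // Cof T}, T'.1 ⊆ T.1 ∧
        ∃ m, ∀ S ∈ T'.1, c S k = m := by
    intro k T
    obtain ⟨T', hT', hcof, m, hm⟩ := cof_step T.1 T.2 (fun S => c S k)
    exact ⟨⟨T', hcof⟩, hT', m, hm⟩
  choose nxt hn1 hn2 using hstep
  let T : ℕ → {T : Set {S : Set D' // S.Countable} // Cof T} := fun n =>
    Nat.rec ⟨univ, fun S₀ => ⟨S₀, mem_univ _, Subset.rfl⟩⟩ (fun k T => nxt k T) n
  have hTs : ∀ n, T (n + 1) = nxt n (T n) := fun n => rfl
  have hTanti : Antitone fun n => (T n).1 := antitone_nat_of_succ_le fun n => by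
    rw [hTs]
    exact hn1 n (T n)
  have hTm : ∀ k, ∃ m, ∀ S ∈ (T (k + 1)).1, c S k = m := by
    intro k
    rw [hTs]
    exact hn2 k (T k)
  let Φ : Filter {S : Set D' // S.Countable} :=
    { sets := {U | ∃ k, ∃ S₀ : {S : Set D' // S.Countable}, ∀ S ∈ (T k).1, S₀.1 ⊆ S.1 → S ∈ U}
      univ_sets := ⟨0, ⟨∅, countable_empty⟩, fun _ _ _ => mem_univ _⟩
      sets_of_superset := by
        rintro U V ⟨k, S₀, h⟩ hUV
        exact ⟨k, S₀, fun S hS hsub => hUV (h S hS hsub)⟩
      inter_sets := by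
        rintro U V ⟨k, S₀, h⟩ ⟨k', S₀', h'⟩
        refine ⟨max k k', ⟨S₀.1 ∪ S₀'.1, S₀.2.union S₀'.2⟩, fun S hS hsub => ⟨?_, ?_⟩⟩
        · exact h S (hTanti (le_max_left k k') hS) (subset_union_left.trans hsub)
        · exact h' S (hTanti (le_max_right k k') hS) (subset_union_right.trans hsub) }
  have hΦ : Φ.NeBot := by
    refine ⟨fun hbot => ?_⟩
    have : (∅ : Set {S : Set D' // S.Countable}) ∈ Φ := by
      rw [hbot]
      exact Filter.mem_bot
    obtain ⟨k, S₀, h⟩ := this
    obtain ⟨S, hS, hsub⟩ := (T k).2 S₀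
    exact h S hS hsub
  let p := Ultrafilter.of Φ
  have hpΦ : ∀ U ∈ Φ, U ∈ p := fun U hU => Ultrafilter.of_le Φ hU
  obtain ⟨h, hhK, hh⟩ := (compact_closure hF).ultrafilter_le_nhds
    (p.map fun S => (f S).1) (by
      rw [le_principal_iff]
      have : ∀ S, (f S).1 ∈ closure (Subtype.val '' F : Set (X → ℝ)) := fun S =>
        subset_closure ⟨f S, hfF S, rfl⟩
      exact Filter.mem_map.2 (Filter.mem_of_superset Filter.univ_mem (fun S _ => this S)))
  have hlim : ∀ x, Tendsto (fun S => (f S).1 x) p (𝓝 (h x)) := by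
    intro x
    have : Tendsto (fun S => (f S).1) (p : Filter _) (𝓝 h) := hh
    exact (continuous_apply x).continuousAt.tendsto.comp this
  have hhg : ∀ x ∈ D', h x = g x := by
    intro x hx
    have hev : ∀ᶠ S in (p : Filter {S : Set D' // S.Countable}), (f S).1 x = g x := by
      apply hpΦ
      refine ⟨0, ⟨{⟨x, hx⟩}, countable_singleton _⟩, fun S _ hsub => ?_⟩
      exact hfg S x ⟨⟨x, hx⟩, hsub rfl, rfl⟩
    have h3 : Tendsto (fun S => (f S).1 x) p (𝓝 (g x)) :=
      tendsto_const_nhds.congr' (hev.mono fun S hS => hS.symm)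
    exact tendsto_nhds_unique (hlim x) h3
  have hcard : Cardinal.mk {S : Set D' // S.Countable} ≤ b (nD + 1) := by
    refine (Cardinal.mk_subtype_le _).trans ?_
    rw [Cardinal.mk_set, b_succ]
    exact Cardinal.power_le_power_left two_ne_zero hnD
  have hcont : Continuous h := by
    rw [continuous_iff']
    intro k
    obtain ⟨m, hm⟩ := hTm (k + 1)
    have hsub : bad h k ⊆ ⋃ S : (T (k + 2)).1, bad (f S.1).1 (k + 1) := by
      intro x hx
      have hx' : 1 / (((k + 1 : ℕ) : ℝ) + 1) < |h x - h X.inf| := by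
        refine lt_of_lt_of_le ?_ (hx : 1 / ((k : ℝ) + 1) ≤ |h x - h X.inf|)
        apply one_div_lt_one_div_of_lt (by positivity)
        push_cast
        linarith
      have hl : Tendsto (fun S => |(f S).1 x - (f S).1 X.inf|) p (𝓝 |h x - h X.inf|) :=
        ((hlim x).sub (hlim X.inf)).abs
      have hev := hl.eventually_const_lt hx'
      have hT' : (T (k + 2)).1 ∈ (p : Filter {S : Set D' // S.Countable}) := by
        apply hpΦ
        exact ⟨k + 2, ⟨∅, countable_empty⟩, fun S hS _ => hS⟩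
      obtain ⟨S, hS1, hS2⟩ := (hev.and hT').exists
      exact mem_iUnion.2 ⟨⟨S, hS2⟩, (hS1.le : 1 / (((k + 1 : ℕ) : ℝ) + 1) ≤ |(f S).1 x - (f S).1 X.inf|)⟩
    refine Sm.mono hsub (Sm.iUnion (n := nD + 1) (m := m) ?_ ?_)
    · exact (Cardinal.mk_subtype_le _).trans hcard
    · rintro ⟨S, hS⟩
      have := hc S (k + 1)
      rw [hm S hS] at this
      exact this
  refine ⟨⟨h, hcont⟩, ?_, hhg⟩
  have : (⟨h, hcont⟩ : CX) ∈ closure F := by
    rw [closure_subtype]
    exact hhK
  rwa [hFc.closure_eq] at this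

theorem isocompact {F : Set CX} (hFc : IsClosed F) (hF : IsCountablyCompact F) : IsCompact F := by
  rw [Subtype.isCompact_iff]
  have hcl : closure (Subtype.val '' F : Set (X → ℝ)) ⊆ Subtype.val '' F := by
    intro g hg
    obtain ⟨f, hfF, hf⟩ := cc_inter hF (fun n => {f | ∀ x ∈ lev n, f.1 x = g x})
      (by
        intro n
        have : {f : CX | ∀ x ∈ lev n, f.1 x = g x} = ⋂ x ∈ lev n, {f : CX | f.1 x = g x} := by
          ext f
          simp
        rw [this]
        exact isClosed_biInter fun x _ =>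
          isClosed_eq ((continuous_apply x).comp continuous_subtype_val) continuous_const)
      (by
        intro n m hnm f hf x hx
        apply hf x
        rcases x with ⟨k, x⟩ | _
        · exact le_trans (hx : k ≤ n) hnm
        · exact trivial)
      (by
        intro n
        obtain ⟨f, hf, hfg⟩ := step_small hFc hF hg (sm_lev n)
        exact ⟨f, hf, hfg⟩)
    refine ⟨f, hfF, ?_⟩
    funext x
    rcases x with ⟨k, x⟩ | _
    · exact mem_iInter.1 hf k _ (le_refl k)
    · exact mem_iInter.1 hf 0 _ trivial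
  have := compact_closure hF
  rwa [subset_antisymm hcl subset_closure] at this

open Classical in
/-- indicators of finite sets of isolated points -/
noncomputable def ind (s : Set X) : X → ℝ := (s \ {X.inf}).indicator 1

theorem ind_cont {s : Set X} (hs : s.Countable) : Continuous (ind s) := by
  apply continuous_of_countable hs
  intro x hx
  unfold ind
  rw [indicator_of_notMem (fun h => hx h.1), indicator_of_notMem (fun h => h.2 rfl)]

def A : Set CX := {f | ∃ s : Finset X, f.1 = ind (s : Set X)}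

theorem A_cc (B : Set CX) (hB : B ⊆ A) (hinf : B.Infinite) : ∃ z : CX, AccPt z (𝓟 B) := by
  classical
  let e := hinf.natEmbedding
  have h1 : ∀ k, ∃ s : Finset X, (e k).1.1 = ind (s : Set X) := fun k => hB (e k).2
  choose s hs using h1
  have hS : (⋃ k, (s k : Set X)).Countable := countable_iUnion fun k => (s k).finite_toSet.countable
  have hK : IsCompact (Set.pi univ fun x : X =>
      if x ∈ (⋃ k, (s k : Set X)) \ {X.inf} then ({0, 1} : Set ℝ) else {0}) := by
    apply isCompact_univ_pi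
    intro x
    split_ifs
    · exact (Set.toFinite ({0, 1} : Set ℝ)).isCompact
    · exact isCompact_singleton
  have hsub : (range fun k => (e k).1.1) ⊆ (Set.pi univ fun x : X =>
      if x ∈ (⋃ k, (s k : Set X)) \ {X.inf} then ({0, 1} : Set ℝ) else {0}) := by
    rintro _ ⟨k, rfl⟩ x _
    change (e k).1.1 x ∈ _
    rw [hs k]
    by_cases hx : x ∈ (⋃ k, (s k : Set X)) \ {X.inf}
    · simp only [hx, if_true]
      unfold ind
      by_cases hx' : x ∈ (s k : Set X) \ {X.inf}
      · rw [indicator_of_mem hx']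
        right
        rfl
      · rw [indicator_of_notMem hx']
        left
        rfl
    · simp only [hx, if_false]
      unfold ind
      rw [indicator_of_notMem]
      · rfl
      · intro h
        exact hx ⟨mem_iUnion.2 ⟨k, h.1⟩, h.2⟩
  have hinf' : (range fun k => (e k).1.1).Infinite := by
    apply infinite_range_of_injective
    intro k k' h
    exact e.injective (Subtype.ext (Subtype.ext h))
  obtain ⟨h, hhK, hacc⟩ := hinf'.exists_accPt_of_subset_isCompact hK hsub
  have hcont : Continuous h := by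
    apply continuous_of_countable hS
    intro x hx
    have h1 := hhK x (mem_univ _)
    have h2 := hhK X.inf (mem_univ _)
    simp only at h1 h2
    rw [if_neg (fun hc => hx hc.1)] at h1
    rw [if_neg (fun hc => hc.2 rfl)] at h2
    rw [mem_singleton_iff] at h1 h2
    rw [h1, h2]
  refine ⟨⟨h, hcont⟩, ?_⟩
  rw [accPt_iff_nhds] at hacc ⊢
  intro U hU
  rw [nhds_subtype_eq_comap, mem_comap] at hU
  obtain ⟨V, hV, hVU⟩ := hU
  obtain ⟨_, ⟨hyV, ⟨k, rfl⟩⟩, hne⟩ := hacc V hV
  refine ⟨(e k).1, ⟨hVU hyV, (e k).2⟩, ?_⟩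
  intro heq
  apply hne
  change (e k).1.1 = h
  rw [heq]

theorem A_not_compact : ¬ IsCompact (closure A) := by
  classical
  intro hcomp
  have h1 : IsCompact (Subtype.val '' closure A : Set (X → ℝ)) := hcomp.image continuous_subtype_val
  have h2 : ind univ ∈ closure (Subtype.val '' closure A : Set (X → ℝ)) := by
    rw [mem_closure_iff]
    intro U hU hmem
    obtain ⟨I, u, hu, hIu⟩ := isOpen_pi_iff.1 hU _ hmem
    refine ⟨ind (I : Set X), hIu ?_, ⟨⟨ind (I : Set X), ind_cont I.finite_toSet.countable⟩,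
      subset_closure ⟨I, rfl⟩, rfl⟩⟩
    intro x hx
    have : ind (I : Set X) x = ind univ x := by
      unfold ind
      by_cases hxi : x = X.inf
      · rw [indicator_of_notMem (fun h => h.2 hxi), indicator_of_notMem (fun h => h.2 hxi)]
      · have m1 : x ∈ (I : Set X) \ {X.inf} := ⟨hx, hxi⟩
        have m2 : x ∈ (univ : Set X) \ {X.inf} := ⟨mem_univ _, hxi⟩
        rw [indicator_of_mem m1, indicator_of_mem m2]
    rw [this]
    exact (hu x hx).2
  rw [h1.isClosed.closure_eq] at h2
  obtain ⟨f, _, hf⟩ := h2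
  have hcont : Continuous (ind univ) := hf ▸ f.2
  have h3 := continuous_iff'.1 hcont 0
  apply not_sm_pts
  refine h3.mono ?_
  intro x hx
  change 1 / (((0 : ℕ) : ℝ) + 1) ≤ |ind univ x - ind univ X.inf|
  unfold ind
  have m2 : x ∈ (univ : Set X) \ {X.inf} := ⟨mem_univ _, hx⟩
  rw [indicator_of_mem m2, indicator_of_notMem (fun h => h.2 rfl)]
  simp

end Pool.Agent.H8.Iso
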