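import Pool.Agent.H8.Iso.Defs
import Pool.Agent.H8.Iso.Main

set_option autoImplicit false

namespace Pool.Agent.H8.Iso

theorem main_thm : ∃ (X : Type) (_ : TopologicalSpace X), T35Space X ∧
    Isocompact (Cp X) ∧ ¬ GSpace (Cp X) :=
  ⟨X, inferInstance, inferInstance, fun _ h1 h2 => isocompact h1 h2,
    fun h => A_not_compact (h A A_cc)⟩

end Pool.Agent.H8.Iso
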