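import Mathlib

set_option autoImplicit false

open Set Filter Topology

namespace Pool.Agent.H8.Iso

/-- iterated power sets of `ℕ` -/
def Dn : ℕ → Type
  | 0 => ℕ
  | n + 1 => Set (Dn n)

/-- the space: isolated points `pt n x` (`x : Dn n`) and one point `inf` -/
inductive X : Type
  | pt : (n : ℕ) → Dn n → X
  | inf : X

def b (n : ℕ) : Cardinal := Cardinal.mk (Dn n)

theorem b_succ (n : ℕ) : b (n + 1) = 2 ^ b n := Cardinal.mk_set

theorem b_lt (n : ℕ) : b n < b (n + 1) := by
  rw [b_succ]
  exact Cardinal.cantor _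

theorem b_mono : Monotone b := monotone_nat_of_le_succ fun n => (b_lt n).le

theorem b_zero : b 0 = Cardinal.aleph0 := Cardinal.mk_nat

theorem aleph0_le_b (n : ℕ) : Cardinal.aleph0 ≤ b n := by
  rw [← b_zero]
  exact b_mono (Nat.zero_le n)

/-- small sets -/
def Sm (S : Set X) : Prop := ∃ n, Cardinal.mk S ≤ b n

theorem Sm.mono {S T : Set X} (h : S ⊆ T) (hT : Sm T) : Sm S := by
  obtain ⟨n, hn⟩ := hT
  exact ⟨n, (Cardinal.mk_le_mk_of_subset h).trans hn⟩

theorem Sm.union {S T : Set X} (hS : Sm S) (hT : Sm T) : Sm (S ∪ T) := by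
  obtain ⟨n, hn⟩ := hS
  obtain ⟨m, hm⟩ := hT
  refine ⟨max n m, (Cardinal.mk_union_le S T).trans ?_⟩
  refine (add_le_add (hn.trans (b_mono (le_max_left n m)))
    (hm.trans (b_mono (le_max_right n m)))).trans ?_
  rw [Cardinal.add_eq_self (aleph0_le_b _)]

theorem Sm.countable {S : Set X} (h : S.Countable) : Sm S :=
  ⟨0, (Cardinal.le_aleph0_iff_set_countable.2 h).trans (aleph0_le_b 0)⟩

theorem Sm.iUnion {ι : Type} {f : ι → Set X} {n m : ℕ} (hι : Cardinal.mk ι ≤ b n)
    (hf : ∀ i, Cardinal.mk (f i) ≤ b m) : Sm (⋃ i, f i) := by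
  refine ⟨max n m, ?_⟩
  have h1 := Cardinal.mk_iUnion_le_sum_mk (f := f)
  have h2 : Cardinal.sum (fun a => Cardinal.mk (f a)) ≤
      Cardinal.sum (fun _ : ι => b (max n m)) :=
    Cardinal.sum_le_sum _ _ fun i => (hf i).trans (b_mono (le_max_right n m))
  refine h1.trans (h2.trans ?_)
  rw [Cardinal.sum_const']
  refine (mul_le_mul' (hι.trans (b_mono (le_max_left n m))) le_rfl).trans ?_
  rw [Cardinal.mul_eq_self (aleph0_le_b _)]

/-- the first levels -/
def lev (n : ℕ) : Set X := {x | match x with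
  | X.inf => True
  | X.pt m _ => m ≤ n}

theorem sm_range (m : ℕ) : Sm (range (X.pt m)) := ⟨m, Cardinal.mk_range_le⟩

theorem sm_lev (n : ℕ) : Sm (lev n) := by
  induction n with
  | zero =>
    refine Sm.mono ?_ ((sm_range 0).union (Sm.countable (countable_singleton X.inf)))
    intro x hx
    rcases x with ⟨m, x⟩ | _
    · left
      have : m ≤ 0 := hx
      obtain rfl : m = 0 := by omega
      exact ⟨x, rfl⟩
    · right
      rfl
  | succ n ih =>
    refine Sm.mono ?_ ((sm_range (n + 1)).union ih)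
    intro x hx
    rcases x with ⟨m, x⟩ | _
    · have : m ≤ n + 1 := hx
      rcases Nat.lt_or_ge m (n + 1) with h | h
      · right
        exact Nat.lt_succ_iff.1 h
      · left
        obtain rfl : m = n + 1 := by omega
        exact ⟨x, rfl⟩
    · right
      exact trivial

theorem not_sm_pts : ¬ Sm {X.inf}ᶜ := by
  rintro ⟨n, hn⟩
  have h1 : Cardinal.mk (range (X.pt (n + 1))) ≤ b n := by
    refine (Cardinal.mk_le_mk_of_subset ?_).trans hn
    rintro _ ⟨x, rfl⟩ h
    rw [mem_singleton_iff] at h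
    cases h
  have hinj : Function.Injective (X.pt (n + 1)) := by
    intro x y h
    injection h
  rw [Cardinal.mk_range_eq _ hinj] at h1
  exact absurd h1 (not_le.2 (b_lt n))

instance : TopologicalSpace X where
  IsOpen U := X.inf ∈ U → Sm Uᶜ
  isOpen_univ := by
    intro _
    exact Sm.countable (by simp)
  isOpen_inter := by
    intro U V hU hV h
    rw [compl_inter]
    exact (hU h.1).union (hV h.2)
  isOpen_sUnion := by
    rintro 𝒮 h ⟨U, hU, hx⟩
    exact (h U hU hx).mono (compl_subset_compl.2 (subset_sUnion_of_mem hU))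

theorem isOpen_def {U : Set X} : IsOpen U ↔ (X.inf ∈ U → Sm Uᶜ) := Iff.rfl

instance : T1Space X := by
  refine ⟨fun y => ?_⟩
  rw [← isOpen_compl_iff, isOpen_def]
  intro _
  rw [compl_compl]
  exact Sm.countable (countable_singleton y)

theorem isOpen_singleton_pt (n : ℕ) (l : Dn n) : IsOpen {X.pt n l} := by
  rw [isOpen_def]
  intro h
  cases h

instance : T35Space X where
  toCompletelyRegularSpace := by
    apply CompletelyRegularSpace.of_isTopologicalBasis_clopens
    refine TopologicalSpace.isTopologicalBasis_of_isOpen_of_nhds ?_ ?_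
    · intro u hu
      exact hu.2
    · intro x U hx hU
      rcases x with ⟨n, l⟩ | _
      · exact ⟨{X.pt n l}, ⟨isClosed_singleton, isOpen_singleton_pt n l⟩, rfl, by simpa using hx⟩
      · refine ⟨U, ⟨?_, hU⟩, hx, Subset.rfl⟩
        rw [← isOpen_compl_iff, isOpen_def]
        intro h
        exact absurd hx h

def bad (f : X → ℝ) (k : ℕ) : Set X := {x | 1 / ((k : ℝ) + 1) ≤ |f x - f X.inf|}

theorem continuous_iff' {f : X → ℝ} : Continuous f ↔ ∀ k, Sm (bad f k) := by
  constructor
  · intro hf k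
    have ho := isOpen_def.1 (Metric.isOpen_ball.preimage hf
      (t := Metric.ball (f X.inf) (1 / ((k : ℝ) + 1))))
    refine (ho (by
      rw [mem_preimage]
      exact Metric.mem_ball_self (by positivity))).mono ?_
    intro x hx h
    rw [mem_preimage, Metric.mem_ball, Real.dist_eq] at h
    exact absurd hx (not_le.2 h)
  · intro h
    refine ⟨fun V hV => ?_⟩
    rw [isOpen_def]
    intro hi
    obtain ⟨ε, hε, hb⟩ := Metric.isOpen_iff.1 hV _ hi
    obtain ⟨k, hk⟩ := exists_nat_one_div_lt hε
    refine (h k).mono ?_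
    intro x hx
    by_contra hc
    apply hx
    rw [mem_preimage]
    apply hb
    rw [Metric.mem_ball, Real.dist_eq]
    have : |f x - f X.inf| < 1 / ((k : ℝ) + 1) := not_le.1 hc
    linarith

theorem continuous_of_countable {f : X → ℝ} {S : Set X} (hS : S.Countable)
    (h : ∀ x ∉ S, f x = f X.inf) : Continuous f := by
  rw [continuous_iff']
  intro k
  refine Sm.countable (hS.mono ?_)
  intro x hx
  by_contra hc
  have h1 : 1 / ((k : ℝ) + 1) ≤ |f x - f X.inf| := hx
  rw [h x hc, sub_self, abs_zero] at h1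
  have : (0 : ℝ) < 1 / ((k : ℝ) + 1) := by positivity
  linarith

end Pool.Agent.H8.Iso
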